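import Pool.Agent.Helper77.CL.Main

set_option autoImplicit false

/-!
Over every finite alphabet with at least two letters there is a surjective cellular automaton which
is not a finite composition of left-closing and right-closing cellular automata.

The automaton. Take first the alphabet which consists of the nine points `(u, v)` of the plane over
the field with three elements and of two separators `9`, `10`. The separators do not move. A point
`x_i = (u, v)` becomes the point `(l, r)`. Here `l = v - v'` if the left neighbour is a point
`(u', v')`, and `l = v`, `l = u` if it is the separator `9`, `10`; and `r = u'' - u` if the right
neighbour is a point `(u'', v'')`, and `r = u - v`, `r = u + v` if it is the separator `9`, `10`.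
So the image tells the differences along every run of points, one of the functionals `u`, `v` of the
first point and one of the functionals `u - v`, `u + v` of the last point: the map is bijective on
every finite run. The nine constant configurations have the same image `0`; each of them can be
separated from each other by their use as left tails and also as right tails, and this makes it
impossible for a composition of one-sided closing automata to merge any two of them (the lemma
`Pool.Agent.H624CA.not_comp` of the starting files). Over an arbitrary alphabet the letters are
replaced by code words without overlaps, and `Ph` is the rule above, `b = 3 u + v` being the letter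
of the point `(u, v)`.
-/

namespace Pool.Agent.Results.MP_2e1455_lc.SurjectiveOutside

open Pool.Agent.H624CA Pool.Agent.Helper77.CL

/-- Over every finite alphabet `S` with at least two letters there is a surjective cellular automaton
`f` which is not a composition of finitely many cellular automata each of which is left-closing or
right-closing; in particular `f` is in no level of the closing hierarchy. `IsCA`, `LeftClosing`,
`RightClosing` and the levels `Lev S k true`, which are `L^cl_k`, are defined in
`Pool.Agent.H624CA.Defs`. -/
theorem result (S : Type) [Finite S] [Nontrivial S] :
    ∃ f : (ℤ → S) → (ℤ → S), IsCA f ∧ Function.Surjective f ∧
      (∀ gs : List ((ℤ → S) → (ℤ → S)), (∀ g ∈ gs, IsCA g ∧ (LeftClosing g ∨ RightClosing g)) →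
        gs.foldr (· ∘ ·) id ≠ f) ∧
      f ∉ ⋃ k : ℕ, Lev S k true := by
  obtain ⟨s0, s1, h01⟩ := exists_pair_ne S
  refine ⟨gx s0 s1 9 Ph, gx_isCA h01 le_rfl, gx_surj h01 le_rfl, fun gs h => not_foldr h01 le_rfl gs h,
    fun hf => ?_⟩
  obtain ⟨k, hk⟩ := Set.mem_iUnion.1 hf
  exact not_lev h01 le_rfl k true hk

end Pool.Agent.Results.MP_2e1455_lc.SurjectiveOutside
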